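import Pool.Agent.H77.WC.Stm

/-! Crew WC: parts PIN and FIN. -/

set_option autoImplicit false

namespace Pool.Agent.H81.WC

open Filter Topology Set MeasureTheory
open scoped BigOperators
open Pool.Agent.H77.WC

theorem bddInt (F : ℝ → ℂ) (hm : Measurable F) (K : ℝ) (hK : ∀ x, ‖F x‖ ≤ K) (a b : ℝ) :
    IntervalIntegrable F volume a b := by
  refine IntervalIntegrable.mono_fun (intervalIntegrable_const (c := K)) hm.aestronglyMeasurable
    (Filter.Eventually.of_forall fun x => ?_)
  rw [Real.norm_eq_abs]
  exact (hK x).trans (le_abs_self K)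

theorem int_ind (a : ℝ) (h0 : 0 ≤ a) (h1 : a ≤ 1) :
    (∫ x in (0 : ℝ)..1, (if Int.fract x < a then (1 : ℂ) else 0)) = a := by
  have hm : Measurable fun x : ℝ => (if Int.fract x < a then (1 : ℂ) else 0) :=
    Measurable.ite (measurableSet_lt measurable_fract measurable_const) measurable_const
      measurable_const
  have hb : ∀ x : ℝ, ‖(if Int.fract x < a then (1 : ℂ) else 0)‖ ≤ 1 := by
    intro x; split_ifs <;> simp
  rw [← intervalIntegral.integral_add_adjacent_intervals (bddInt _ hm 1 hb 0 a) (bddInt _ hm 1 hb a 1)]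
  have e1 : (∫ x in (0 : ℝ)..a, (if Int.fract x < a then (1 : ℂ) else 0)) = ∫ x in (0 : ℝ)..a, (1 : ℂ) := by
    apply intervalIntegral.integral_congr_ae
    have hne : ∀ᵐ x : ℝ, x ≠ a := by
      rw [ae_iff]; simp
    have hne1 : ∀ᵐ x : ℝ, x ≠ 1 := by
      rw [ae_iff]; simp
    filter_upwards [hne, hne1] with x hx hx1 hxm
    rw [uIoc_of_le h0] at hxm
    have hlt : x < a := lt_of_le_of_ne hxm.2 hx
    have : Int.fract x = x := Int.fract_eq_self.mpr ⟨hxm.1.le, by linarith⟩
    rw [this, if_pos hlt]
  have e2 : (∫ x in a..(1 : ℝ), (if Int.fract x < a then (1 : ℂ) else 0)) = ∫ x in a..(1 : ℝ), (0 : ℂ) := by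
    apply intervalIntegral.integral_congr_ae
    have hne1 : ∀ᵐ x : ℝ, x ≠ 1 := by
      rw [ae_iff]; simp
    filter_upwards [hne1] with x hx1 hxm
    rw [uIoc_of_le h1] at hxm
    have hlt : x < 1 := lt_of_le_of_ne hxm.2 hx1
    have : Int.fract x = x := Int.fract_eq_self.mpr ⟨by linarith [hxm.1], hlt⟩
    rw [this, if_neg (by linarith [hxm.1])]
  rw [e1, e2]
  simp

theorem pin (hTRG : S_TRG) (hPRA : S_PRA) : S_PIN := by
  classical
  intro L a hL ha0 ha1
  have hm : Measurable fun x : ℝ => (if Int.fract x < a then (1 : ℂ) else 0) :=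
    Measurable.ite (measurableSet_lt measurable_fract measurable_const) measurable_const
      measurable_const
  have hb : ∀ x : ℝ, ‖(if Int.fract x < a then (1 : ℂ) else 0)‖ ≤ 1 := by
    intro x; split_ifs <;> simp
  refine ⟨?_, ?_⟩
  · intro ε hε
    obtain ⟨s, c, hsc⟩ := hTRG a (ε / 2) ha0 ha1 (by positivity)
    set Q : ℝ → ℂ := fun x => ∑ n ∈ s, c n * Complex.exp (((2 * Real.pi * n * x : ℝ) : ℂ) * Complex.I)
      with hQ
    have hQm : Measurable Q := by
      apply Continuous.measurable
      rw [hQ]
      fun_prop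
    have hQ1 : ∀ x, Q (x + 1) = Q x := by
      intro x
      simp only [hQ]
      apply Finset.sum_congr rfl
      intro n _
      congr 1
      have : (((2 * Real.pi * n * (x + 1) : ℝ) : ℂ) * Complex.I) =
          ((2 * Real.pi * n * x : ℝ) : ℂ) * Complex.I + n * (2 * Real.pi * Complex.I) := by
        push_cast; ring
      rw [this, Complex.exp_add, Complex.exp_int_mul_two_pi_mul_I, mul_one]
    have hQb : ∀ x, ‖Q x‖ ≤ ∑ n ∈ s, ‖c n‖ := by
      intro x
      refine (norm_sum_le _ _).trans (Finset.sum_le_sum fun n _ => ?_)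
      rw [norm_mul, Complex.norm_exp_ofReal_mul_I, mul_one]
    set F : ℝ → ℂ := fun x => ((‖(if Int.fract x < a then (1 : ℂ) else 0) - Q x‖ : ℝ) : ℂ) with hF
    have hFm : Measurable F := by
      rw [hF]
      exact Complex.measurable_ofReal.comp (hm.sub hQm).norm
    have hFb : ∀ x, ‖F x‖ ≤ 1 + ∑ n ∈ s, ‖c n‖ := by
      intro x
      simp only [hF, Complex.norm_real, norm_norm]
      exact (norm_sub_le _ _).trans (add_le_add (hb x) (hQb x))
    have hFp : ∀ x, F (x + 1) = F x := by
      intro x
      simp only [hF, hQ1, Int.fract_add_one]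
    have hMV := hPRA F L _ hL hFm hFb hFp
    have hI : (∫ x in (0 : ℝ)..1, F x) = (((∫ x in (0 : ℝ)..1, ‖(if x < a then (1 : ℂ) else 0) -
        ∑ n ∈ s, c n * Complex.exp (((2 * Real.pi * n * x : ℝ) : ℂ) * Complex.I)‖) : ℝ) : ℂ) := by
      rw [← intervalIntegral.integral_ofReal]
      apply intervalIntegral.integral_congr_ae
      have hne1 : ∀ᵐ x : ℝ, x ≠ 1 := by
        rw [ae_iff]; simp
      filter_upwards [hne1] with x hx1 hxm
      rw [uIoc_of_le zero_le_one] at hxm
      have hlt : x < 1 := lt_of_le_of_ne hxm.2 hx1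
      have : Int.fract x = x := Int.fract_eq_self.mpr ⟨hxm.1.le, hlt⟩
      simp only [hF, this]
      rfl
    have hre := (Complex.continuous_re.tendsto _).comp hMV
    rw [hI, Complex.ofReal_re] at hre
    have hev := hre.eventually (gt_mem_nhds (show (∫ x in (0 : ℝ)..1, ‖(if x < a then (1 : ℂ) else 0) -
        ∑ n ∈ s, c n * Complex.exp (((2 * Real.pi * n * x : ℝ) : ℂ) * Complex.I)‖) < ε by linarith))
    set φ : ℤ → ℝ := fun n => 2 * Real.pi * n / L with hφ
    have hφi : Function.Injective φ := by
      intro m n hmn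
      simp only [hφ] at hmn
      have h2 : (2 * Real.pi) ≠ 0 := by positivity
      field_simp at hmn
      exact_mod_cast hmn
    refine ⟨s.image φ, fun l => c (Function.invFun φ l), ?_, ?_⟩
    · intro l hl
      obtain ⟨n, _, rfl⟩ := Finset.mem_image.mp hl
      rw [AddSubgroup.mem_zmultiples_iff]
      exact ⟨n, by simp only [hφ, zsmul_eq_mul]; ring⟩
    · filter_upwards [hev, eventually_gt_atTop (0 : ℝ)] with T hT hT0
      have htr : ∀ t, trig (s.image φ) (fun l => c (Function.invFun φ l)) t = Q (t / L) := by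
        intro t
        simp only [trig, hQ]
        rw [Finset.sum_image (fun x _ y _ h => hφi h)]
        apply Finset.sum_congr rfl
        intro n _
        rw [Function.leftInverse_invFun hφi n]
        congr 2
        simp only [hφ]
        push_cast
        ring
      have hint : (∫ t in (0 : ℝ)..T, F (t / L)) = (((∫ t in (0 : ℝ)..T, ‖per L a t -
          trig (s.image φ) (fun l => c (Function.invFun φ l)) t‖) : ℝ) : ℂ) := by
        rw [← intervalIntegral.integral_ofReal]
        apply intervalIntegral.integral_congr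
        intro t _
        simp only [hF, htr, per]
      have hT' : ((∫ t in (0 : ℝ)..T, F (t / L)) / (T : ℂ)).re < ε := hT
      rw [hint, ← Complex.ofReal_div, Complex.ofReal_re, div_lt_iff₀ hT0] at hT'
      exact hT'.le
  · have h := hPRA (fun x => if Int.fract x < a then (1 : ℂ) else 0) L 1 hL hm hb
      (fun x => by simp only [Int.fract_add_one])
    rw [int_ind a ha0 ha1] at h
    exact h

theorem mp_nonneg {p : ℕ} (hp : p.Prime) : 0 ≤ mp p := by
  have h1 : (1 : ℝ) < p := by exact_mod_cast hp.one_lt
  unfold mp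
  apply div_nonneg
  · apply Real.log_nonneg
    have : (0 : ℝ) ≤ 1 / p := by positivity
    linarith
  · exact Real.log_nonneg h1.le

theorem mp_le_one {p : ℕ} (hp : p.Prime) : mp p ≤ 1 := by
  have h2 : (2 : ℝ) ≤ p := by exact_mod_cast hp.two_le
  unfold mp
  rw [div_le_one (Real.log_pos (by linarith))]
  apply Real.log_le_log
  · positivity
  · have : (1 : ℝ) / p ≤ 1 := by
      rw [div_le_one (by linarith)]; linarith
    linarith

theorem ap_mono {Λ Λ' : AddSubgroup ℝ} {g : ℝ → ℂ} (h : Λ ≤ Λ') (hg : AP Λ g) : AP Λ' g := by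
  intro ε hε
  obtain ⟨s, c, h1, h2⟩ := hg ε hε
  exact ⟨s, c, fun l hl => h (h1 l hl), h2⟩

theorem ap_one (Λ : AddSubgroup ℝ) : AP Λ (fun _ => (1 : ℂ)) := by
  intro ε hε
  refine ⟨{0}, fun _ => 1, ?_, ?_⟩
  · intro l hl
    rw [Finset.mem_singleton.mp hl]
    exact Λ.zero_mem
  · filter_upwards [eventually_ge_atTop (0 : ℝ)] with T hT
    have : ∀ t, ‖(1 : ℂ) - trig {0} (fun _ => 1) t‖ = 0 := by
      intro t
      simp [trig]
    simp only [this, intervalIntegral.integral_zero]
    positivity

theorem ap_sub {Λ : AddSubgroup ℝ} {g : ℝ → ℂ} (hg : AP Λ g) : AP Λ (fun t => 1 - g t) := by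
  classical
  intro ε hε
  obtain ⟨s, c, h1, h2⟩ := hg ε hε
  refine ⟨insert 0 s, fun l => (if l = 0 then 1 else 0) - (if l ∈ s then c l else 0), ?_, ?_⟩
  · intro l hl
    rcases Finset.mem_insert.mp hl with rfl | hl
    · exact Λ.zero_mem
    · exact h1 l hl
  · filter_upwards [h2] with T hT
    have key : ∀ t, trig (insert 0 s) (fun l => (if l = 0 then 1 else 0) - (if l ∈ s then c l else 0)) t =
        1 - trig s c t := by
      intro t
      unfold trig
      simp only [sub_mul]
      rw [Finset.sum_sub_distrib]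
      congr 1
      · rw [Finset.sum_eq_single 0]
        · simp
        · intro l _ hl; simp [hl]
        · intro h; exact absurd (Finset.mem_insert_self 0 s) h
      · symm
        apply Finset.sum_subset_zero_on_sdiff (Finset.subset_insert 0 s)
        · intro l hl
          rw [Finset.mem_sdiff] at hl
          simp [hl.2]
        · intro l hl
          simp [hl]
    have : ∀ t, ‖(1 - g t) - trig (insert 0 s) (fun l => (if l = 0 then 1 else 0) -
        (if l ∈ s then c l else 0)) t‖ = ‖g t - trig s c t‖ := by
      intro t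
      rw [key, ← norm_neg]
      congr 1
      ring
    simp only [this]
    exact hT

theorem gs_val (S : Finset ℕ) (t : ℝ) : GS S t = 0 ∨ GS S t = 1 := by
  classical
  induction S using Finset.induction_on with
  | empty => right; simp [GS]
  | insert p S hp ih =>
    have h : GS (insert p S) t = (1 - per (Real.log p) (mp p) t) * GS S t := by
      unfold GS; rw [Finset.prod_insert hp]
    rw [h]
    have h1 : per (Real.log p) (mp p) t = 0 ∨ per (Real.log p) (mp p) t = 1 := by
      unfold per; split_ifs <;> simp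
    rcases h1 with h1 | h1 <;> rcases ih with h2 | h2 <;> simp [h1, h2]

theorem per_meas (L a : ℝ) : Measurable (per L a) := by
  unfold per
  exact Measurable.ite (measurableSet_lt (measurable_fract.comp (measurable_id.div_const L))
    measurable_const) measurable_const measurable_const

theorem gs_bd (S : Finset ℕ) : Bd1 (GS S) := by
  refine ⟨?_, ?_⟩
  · unfold GS
    exact Finset.measurable_fun_prod S fun p _ => measurable_const.sub (per_meas _ _)
  · intro t
    rcases gs_val S t with h | h <;> simp [h]

theorem fin (hPIN : S_PIN) (hPRD : S_PRD) (hMEA : S_MEA) : S_FIN := by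
  classical
  intro S hS
  have hap : AP (LS S) (GS S) := by
    induction S using Finset.induction_on with
    | empty =>
      have h : GS ∅ = fun _ => (1 : ℂ) := by
        funext t; simp [GS]
      rw [h]
      exact ap_one _
    | insert p S hp ih =>
      have hpp : p.Prime := hS p (Finset.mem_insert_self p S)
      have ih' := ih fun q hq => hS q (Finset.mem_insert_of_mem hq)
      have hlog : 0 < Real.log p := Real.log_pos (by exact_mod_cast hpp.one_lt)
      have h1 := ap_sub (hPIN (Real.log p) (mp p) hlog (mp_nonneg hpp) (mp_le_one hpp)).1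
      have hb : Bd1 (fun t => 1 - per (Real.log p) (mp p) t) := by
        refine ⟨measurable_const.sub (per_meas _ _), fun t => ?_⟩
        have h1 : per (Real.log p) (mp p) t = 0 ∨ per (Real.log p) (mp p) t = 1 := by
          unfold per; split_ifs <;> simp
        rcases h1 with h1 | h1 <;> simp [h1]
      have h2 := hPRD _ _ _ _ hb (gs_bd S) h1 ih'
      have h3 : (fun t => (1 - per (Real.log p) (mp p) t) * GS S t) = GS (insert p S) := by
        funext t
        unfold GS; rw [Finset.prod_insert hp]
      rw [h3] at h2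
      refine ap_mono ?_ h2
      rw [sup_le_iff]
      constructor
      · rw [AddSubgroup.zmultiples_le]
        exact AddSubgroup.subset_closure ⟨p, Finset.mem_coe.mpr (Finset.mem_insert_self p S), rfl⟩
      · unfold LS
        apply AddSubgroup.closure_mono
        apply Set.image_mono
        exact Finset.coe_subset.mpr (Finset.subset_insert p S)
  refine ⟨gs_bd S, hap, ?_⟩
  obtain ⟨m, hm⟩ := hMEA _ _ (gs_bd S) hap
  have hclosed : IsClosed ((fun r : ℝ => (r : ℂ)) '' Set.Icc (0 : ℝ) 1) :=
    (isCompact_Icc.image Complex.continuous_ofReal).isClosed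
  have hmem : m ∈ (fun r : ℝ => (r : ℂ)) '' Set.Icc (0 : ℝ) 1 := by
    refine hclosed.mem_of_tendsto hm ?_
    filter_upwards [eventually_gt_atTop (0 : ℝ)] with T hT
    have hre : ∀ t, GS S t = (((GS S t).re : ℝ) : ℂ) := by
      intro t
      rcases gs_val S t with h | h <;> simp [h]
    have h01 : ∀ t, 0 ≤ (GS S t).re ∧ (GS S t).re ≤ 1 := by
      intro t
      rcases gs_val S t with h | h <;> simp [h]
    have hint : (∫ t in (0 : ℝ)..T, GS S t) = (((∫ t in (0 : ℝ)..T, (GS S t).re) : ℝ) : ℂ) := by
      rw [← intervalIntegral.integral_ofReal]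
      apply intervalIntegral.integral_congr
      intro t _
      exact hre t
    have hii : IntervalIntegrable (fun t => (GS S t).re) volume 0 T := by
      refine IntervalIntegrable.mono_fun (intervalIntegrable_const (c := (1 : ℝ)))
        (Complex.measurable_re.comp (gs_bd S).1).aestronglyMeasurable
        (Filter.Eventually.of_forall fun x => ?_)
      simp only [norm_one, Real.norm_eq_abs]
      rw [abs_of_nonneg (h01 x).1]
      exact (h01 x).2
    refine ⟨(∫ t in (0 : ℝ)..T, (GS S t).re) / T, ⟨?_, ?_⟩, ?_⟩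
    · apply div_nonneg _ hT.le
      exact intervalIntegral.integral_nonneg hT.le fun t _ => (h01 t).1
    · rw [div_le_one hT]
      have h := intervalIntegral.integral_mono_on (μ := volume) hT.le hii
        (intervalIntegrable_const (c := (1 : ℝ))) (fun t _ => (h01 t).2)
      simpa using h
    · simp only [hint, Complex.ofReal_div]
  obtain ⟨d, hd, rfl⟩ := hmem
  exact ⟨d, hd.1, hd.2, hm⟩

end Pool.Agent.H81.WC
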